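import Pool.Agent.Helper82.FQ.Scale

/-!
# Project FQ (MP_0f6f3f_an): the scale lemma for the laws

`conc`: expectations of functions which are almost constant. `tendsto_law`: `⟪V_q 1, Φ(f) V_q 1⟫` is the limit of the expectations of `f` under `zx (b n q)` (mass one).
`scale_bound`: if the size `h` is within `C` of `m n` under `zx (b n)` and within `C` of `m n + d n` under `zx (b n q)`, `q` in the commutator subgroup of the centraliser of `b`, `d` bounded,
then `|d n| ≤ 100 C` (for almost all `n`).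
-/

set_option autoImplicit false
set_option linter.unusedSectionVars false

open MeasureTheory Filter Topology

namespace Pool.Agent.Helper82.FQ

open Pool.Agent.Helper84 Pool.Agent.Helper84.GN Pool.Agent.Helper84.GN.S3 Pool.Agent.Helper84.GN.S3.X
open Pool.Agent.Helper84.NI Pool.Agent.Helper84.GVN Pool.Agent.Helper90.RK
open Pool.Agent.Helper96.RK Pool.Agent.Helper66.FR Pool.Agent.Helper84.FR Pool.Agent.Helper55.FR
open Pool.Agent.Helper78.BM

section Conc

variable {X G : Type} [MeasurableSpace X] {μ : Measure X} [IsProbabilityMeasure μ]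

theorem conc {ξ : XL μ (L2 G)} (hξ : ‖ξ‖ = 1) {F : G → ℂ} (hF : ∀ γ, ‖F γ‖ ≤ 1) {z : ℂ} (hz : ‖z‖ ≤ 1) {S : Set G}
    {η ε : ℝ} (hη : 0 ≤ η) (hS : ∀ γ, γ ∉ S → ‖F γ - z‖ ≤ η) (hε : ‖cl μ (ind ℂ S) ξ‖ ≤ ε) :
    ‖inner ℂ ξ (cl μ (mulop F) ξ) - z‖ ≤ η + 2 * ε := by
  classical
  have hF2 : ∀ γ, ‖F γ - z‖ ≤ 2 := fun γ => (norm_sub_le _ _).trans (by linarith [hF γ])
  have hF1 : ∀ γ, ‖(Sᶜ.indicator (fun γ => F γ - z) γ : ℂ)‖ ≤ η := fun γ => by
    unfold Set.indicator
    split_ifs with h1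
    · exact hS γ h1
    · rw [norm_zero]
      exact hη
  have hF1' : ∀ γ, ‖(Sᶜ.indicator (fun γ => F γ - z) γ : ℂ)‖ ≤ η := hF1
  have e : mulop F = z • ContinuousLinearMap.id ℂ (L2 G) + mulop (Sᶜ.indicator fun γ => F γ - z) +
      (mulop fun γ => F γ - z).comp (ind ℂ S) := by
    ext x : 1
    refine l2_ext fun γ => ?_
    have e1 : (z • ContinuousLinearMap.id ℂ (L2 G) + mulop (Sᶜ.indicator fun γ => F γ - z) +
      (mulop fun γ => F γ - z).comp (ind ℂ S)) x = z • x + mulop (Sᶜ.indicator fun γ => F γ - z) x +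
        mulop (fun γ => F γ - z) (ind ℂ S x) := rfl
    rw [e1, lp.coeFn_add, lp.coeFn_add, Pi.add_apply, Pi.add_apply, mulop_app hF, mulop_app hF1, mulop_app hF2,
      ind_apply, lp.coeFn_smul, Pi.smul_apply, smul_eq_mul]
    by_cases hγ : γ ∈ S
    · rw [Set.indicator_of_notMem (by simpa using hγ), if_pos hγ]
      ring
    · rw [Set.indicator_of_mem (by simpa using hγ), if_neg hγ]
      ring
  have e2 : cl μ (mulop F) ξ = z • ξ + cl μ (mulop (Sᶜ.indicator fun γ => F γ - z)) ξ +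
      cl μ (mulop fun γ => F γ - z) (cl μ (ind ℂ S) ξ) := by
    rw [e, cl_add, cl_add, cl_smul, _root_.add_apply, _root_.add_apply,
      _root_.smul_apply, cl_id, cl_comp]
  rw [e2, inner_add_right, inner_add_right, inner_smul_right, inner_self_eq_norm_sq_to_K, hξ]
  have h1 : ‖inner ℂ ξ (cl μ (mulop (Sᶜ.indicator fun γ => F γ - z)) ξ)‖ ≤ η := by
    refine (norm_inner_le_norm _ _).trans ?_
    rw [hξ, one_mul]
    have := norm_cl_le_of hη (norm_mulop_app hη hF1') ξ (μ := μ)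
    rwa [hξ, mul_one] at this
  have h2 : ‖inner ℂ ξ (cl μ (mulop fun γ => F γ - z) (cl μ (ind ℂ S) ξ))‖ ≤ 2 * ε := by
    refine (norm_inner_le_norm _ _).trans ?_
    rw [hξ, one_mul]
    have := norm_cl_le_of zero_le_two (norm_mulop_app zero_le_two hF2) (cl μ (ind ℂ S) ξ) (μ := μ)
    exact this.trans (mul_le_mul_of_nonneg_left hε zero_le_two)
  have e3 : z * (((1 : ℝ) : ℂ) ^ 2) + inner ℂ ξ (cl μ (mulop (Sᶜ.indicator fun γ => F γ - z)) ξ) +
      inner ℂ ξ (cl μ (mulop fun γ => F γ - z) (cl μ (ind ℂ S) ξ)) - z =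
      inner ℂ ξ (cl μ (mulop (Sᶜ.indicator fun γ => F γ - z)) ξ) +
      inner ℂ ξ (cl μ (mulop fun γ => F γ - z) (cl μ (ind ℂ S) ξ)) := by
    push_cast
    ring
  change ‖z * (((1 : ℝ) : ℂ) ^ 2) + _ + _ - z‖ ≤ _
  rw [e3]
  exact (norm_add_le _ _).trans (add_le_add h1 h2)

end Conc

variable {G1 X G Λ : Type} [Group G1] [TopologicalSpace G1] [IsTopologicalGroup G1] [MeasurableSpace X] [MulAction G1 X]
  [MeasurableConstSMul G1 X] [Group G] [Group Λ] [Countable Λ] {μ : Measure X} [SMulInvariantMeasure G1 X μ]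
  [IsProbabilityMeasure μ] {a : Cocy G1 X Λ} {E : Emb Λ G} {R : Reg G} {pd : PD G} {b : ℕ → G1}

theorem Tb_V_one (q : G1) : Tb μ a E R b (Vq μ a E q (cst μ (dl 1))) = XPpr R (vec μ a E fun n => b n * q) := by
  rw [Tb_V]
  have h1 : KK μ a E (fun n => b n * q) (cst μ (dl 1)) = vec μ a E fun n => b n * q := by
    refine UE.eq ?_
    rw [val_KK, vec_eq, UE.val_mk]
    congr 1
    apply Subtype.ext
    funext n
    exact WW_one _
  rw [h1]

/-- Mass one: `vec (b n q)` is in the region. -/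
theorem XPpr_eq (B : BMap μ a E R pd b) (hp : B.p = 1) (q : G1) :
    ((XPpr R (vec μ a E fun n => b n * q) : XUa μ R) : UE μ (L2 G)) = vec μ a E fun n => b n * q := by
  have h1 : ‖XPpr R (vec μ a E fun n => b n * q)‖ = 1 := by
    have h2 := B.inner_T (Vq μ a E q (cst μ (dl 1))) (Vq μ a E q (cst μ (dl 1)))
    rw [Tb_V_one, hp, inner_Vq, inner_self_eq_norm_sq_to_K, inner_self_eq_norm_sq_to_K, LinearIsometry.norm_map, norm_dl] at h2
    have h3 : ‖XPpr R (vec μ a E fun n => b n * q)‖ ^ 2 = 1 := by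
      have h4 : ((‖XPpr R (vec μ a E fun n => b n * q)‖ ^ 2 : ℝ) : ℂ) = ((1 : ℝ) : ℂ) := by
        push_cast
        simpa using h2
      exact Complex.ofReal_injective h4
    nlinarith [norm_nonneg (XPpr R (vec μ a E fun n => b n * q)), sq_nonneg (‖XPpr R (vec μ a E fun n => b n * q)‖ - 1)]
  have h2 : ‖(vec μ a E fun n => b n * q)‖ = 1 := norm_vec _
  have h3 : vec μ a E (fun n => b n * q) ∈ XUa μ R := by
    rw [Submodule.mem_iff_norm_starProjection, h2]
    exact h1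
  exact Submodule.starProjection_eq_self_iff.2 h3

/-- The limit of the expectations. -/
theorem tendsto_law (B : BMap μ a E R pd b) (hp : B.p = 1) (q : G1) {f : G → ℂ} :
    Tendsto (fun n => inner ℂ (zx μ a E (b n * q)) (cl μ (mulop f) (zx μ a E (b n * q)))) (hyperfilter ℕ : Filter ℕ)
      (𝓝 (inner ℂ (Vq μ a E q (cst μ (dl 1))) (B.Ph f (Vq μ a E q (cst μ (dl 1)))))) := by
  rw [B.inner_Ph, hp, Complex.ofReal_one, inv_one, one_mul, Tb_V_one]
  change Tendsto _ _ (𝓝 (inner ℂ ((XPpr R (vec μ a E fun n => b n * q) : XUa μ R) : UE μ (L2 G))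
    ((Mf μ R f (XPpr R (vec μ a E fun n => b n * q)) : XUa μ R) : UE μ (L2 G))))
  rw [coe_Mf, XPpr_eq B hp q, vec_eq, UE.map_mk]
  exact UE.tendsto_inner _ _ _ _

/-- The expectations of `f` under `zx (b n q)` and `zx (b n)` have the same limit. -/
theorem tendsto_diff (B : BMap μ a E R pd b) (hp : B.p = 1) {f : G → ℂ} {g : G → G → ℂ} (h : Gk R pd f g) (hP : PLf R pd)
    (hE : ErgU μ a E (Ctr b)) (h3 : Tendsto (fun g : G1 => μ {x | a.a g x ≠ 1}) (𝓝 1) (𝓝 0)) {q : cen b}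
    (hq : q ∈ commutator (cen b)) :
    Tendsto (fun n => inner ℂ (zx μ a E (b n * (q : G1))) (cl μ (mulop f) (zx μ a E (b n * (q : G1)))) -
      inner ℂ (zx μ a E (b n)) (cl μ (mulop f) (zx μ a E (b n)))) (hyperfilter ℕ : Filter ℕ) (𝓝 0) := by
  have h1 := tendsto_law B hp (q : G1) (f := f)
  have h2 := tendsto_law B hp (1 : G1) (f := f)
  have e : ∀ x, Vq μ a E (1 : G1) x = x := fun x => by
    change vg μ a (jjR E) _ _ = _
    rw [vg_one]
  rw [Ph_comm B h hP hE h3 hq, inner_Vq] at h1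
  simp only [mul_one] at h2
  rw [e] at h2
  have h4 := h1.sub h2
  rwa [sub_self] at h4

theorem norm_exp_sub_le (s t : ℝ) : ‖Complex.exp ((s : ℝ) * Complex.I) - Complex.exp ((t : ℝ) * Complex.I)‖ ≤ |s - t| := by
  have e : Complex.exp ((s : ℝ) * Complex.I) - Complex.exp ((t : ℝ) * Complex.I) =
      Complex.exp ((t : ℝ) * Complex.I) * (Complex.exp (Complex.I * ((s - t : ℝ) : ℂ)) - 1) := by
    rw [mul_sub, ← Complex.exp_add, mul_one]
    congr 2
    push_cast
    ring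
  rw [e, norm_mul, Complex.norm_exp_ofReal_mul_I, one_mul]
  exact Real.norm_exp_I_mul_ofReal_sub_one_le

/-- **The scale lemma** for the laws: the size of `zx (b n q)` is that of `zx (b n)` up to a constant which does not depend on `q`. -/
theorem scale_bound (B : BMap μ a E R pd b) (hp : B.p = 1) (hP : PLf R pd) (hE : ErgU μ a E (Ctr b))
    (h3 : Tendsto (fun g : G1 => μ {x | a.a g x ≠ 1}) (𝓝 1) (𝓝 0)) {h : G → ℝ}
    (hG : ∀ t : ℝ, ∃ g, Gk R pd (fun γ => Complex.exp (((t * h γ : ℝ) : ℂ) * Complex.I)) g) {q : cen b}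
    (hq : q ∈ commutator (cen b)) {m d : ℕ → ℝ} {C : ℝ} (hC : 0 < C)
    (h1 : ∀ᶠ n in (hyperfilter ℕ : Filter ℕ), ‖cl μ (ind ℂ {γ | C < |h γ - m n|}) (zx μ a E (b n))‖ ≤ 1 / 10)
    (h2 : ∀ᶠ n in (hyperfilter ℕ : Filter ℕ),
      ‖cl μ (ind ℂ {γ | C < |h γ - (m n + d n)|}) (zx μ a E (b n * (q : G1)))‖ ≤ 1 / 10)
    (hd : ∃ D, ∀ᶠ n in (hyperfilter ℕ : Filter ℕ), |d n| ≤ D) :
    ∀ᶠ n in (hyperfilter ℕ : Filter ℕ), |d n| ≤ 100 * C := by
  obtain ⟨D, hD⟩ := hd
  obtain ⟨x, -, hx⟩ : ∃ x ∈ Set.Icc (-D) D, Tendsto d (hyperfilter ℕ : Filter ℕ) (𝓝 x) := by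
    have hc : IsCompact (Set.Icc (-D) D) := isCompact_Icc
    have hmem : Set.Icc (-D) D ∈ (hyperfilter ℕ).map d := by
      change ∀ᶠ n in (hyperfilter ℕ : Filter ℕ), d n ∈ Set.Icc (-D) D
      filter_upwards [hD] with n hn
      exact abs_le.1 hn
    obtain ⟨x, hx, hx2⟩ := hc.ultrafilter_le_nhds ((hyperfilter ℕ).map d) (le_principal_iff.2 hmem)
    exact ⟨x, hx, hx2⟩
  have hx20 : |x| ≤ 20 * C := by
    by_contra hcon
    push Not at hcon
    have hx0 : 0 < |x| := lt_trans (by positivity) hcon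
    have hxne : x ≠ 0 := abs_pos.1 hx0
    obtain ⟨g, hg⟩ := hG (Real.pi / x)
    have k1 := tendsto_diff B hp hg hP hE h3 hq
    set t : ℝ := Real.pi / x with ht
    have htC : |t| * C ≤ Real.pi / 20 := by
      rw [ht, abs_div, abs_of_pos Real.pi_pos, div_mul_eq_mul_div, div_le_div_iff₀ hx0 (by norm_num)]
      nlinarith [Real.pi_pos]
    have hpi : Real.pi / 20 ≤ 1 / 5 := by linarith [Real.pi_lt_four]
    have key : ∀ (ξ : XL μ (L2 G)) (c : ℝ), ‖ξ‖ = 1 → ‖cl μ (ind ℂ {γ | C < |h γ - c|}) ξ‖ ≤ 1 / 10 →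
        ‖inner ℂ ξ (cl μ (mulop fun γ => Complex.exp (((t * h γ : ℝ) : ℂ) * Complex.I)) ξ) -
          Complex.exp (((t * c : ℝ) : ℂ) * Complex.I)‖ ≤ 2 / 5 := by
      intro ξ c hξ hc
      have h5 := conc (μ := μ) hξ (F := fun γ => Complex.exp (((t * h γ : ℝ) : ℂ) * Complex.I))
        (fun γ => (Complex.norm_exp_ofReal_mul_I _).le) (z := Complex.exp (((t * c : ℝ) : ℂ) * Complex.I))
        (Complex.norm_exp_ofReal_mul_I _).le (S := {γ | C < |h γ - c|}) (η := 1 / 5) (by norm_num) (fun γ hγ => ?_) hc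
      · exact h5.trans (by norm_num)
      · have hγ' : |h γ - c| ≤ C := not_lt.1 hγ
        refine (norm_exp_sub_le _ _).trans ?_
        rw [← mul_sub, abs_mul]
        calc |t| * |h γ - c| ≤ |t| * C := mul_le_mul_of_nonneg_left hγ' (abs_nonneg _)
          _ ≤ 1 / 5 := htC.trans hpi
    have k2 : ∀ᶠ n in (hyperfilter ℕ : Filter ℕ), ‖Complex.exp (((t * (d n) : ℝ) : ℂ) * Complex.I) - 1‖ ≤ 4 / 5 +
        ‖inner ℂ (zx μ a E (b n * (q : G1))) (cl μ (mulop fun γ => Complex.exp (((t * h γ : ℝ) : ℂ) * Complex.I))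
          (zx μ a E (b n * (q : G1)))) - inner ℂ (zx μ a E (b n)) (cl μ (mulop fun γ => Complex.exp (((t * h γ : ℝ) : ℂ) *
          Complex.I)) (zx μ a E (b n)))‖ := by
      filter_upwards [h1, h2] with n hn1 hn2
      have e1 := key _ _ (norm_zx (b n)) hn1
      have e2 := key _ _ (norm_zx (b n * (q : G1))) hn2
      set A := inner ℂ (zx μ a E (b n * (q : G1))) (cl μ (mulop fun γ => Complex.exp (((t * h γ : ℝ) : ℂ) * Complex.I))
          (zx μ a E (b n * (q : G1))))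
      set A' := inner ℂ (zx μ a E (b n)) (cl μ (mulop fun γ => Complex.exp (((t * h γ : ℝ) : ℂ) * Complex.I)) (zx μ a E (b n)))
      have e3 : Complex.exp (((t * (m n + d n) : ℝ) : ℂ) * Complex.I) =
          Complex.exp (((t * m n : ℝ) : ℂ) * Complex.I) * Complex.exp (((t * (d n) : ℝ) : ℂ) * Complex.I) := by
        rw [← Complex.exp_add]
        congr 1
        push_cast
        ring
      have e4 : ‖Complex.exp (((t * (d n) : ℝ) : ℂ) * Complex.I) - 1‖ =
          ‖Complex.exp (((t * (m n + d n) : ℝ) : ℂ) * Complex.I) - Complex.exp (((t * m n : ℝ) : ℂ) * Complex.I)‖ := by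
        have e5 : Complex.exp (((t * (m n + d n) : ℝ) : ℂ) * Complex.I) - Complex.exp (((t * m n : ℝ) : ℂ) * Complex.I) =
            Complex.exp (((t * m n : ℝ) : ℂ) * Complex.I) * (Complex.exp (((t * (d n) : ℝ) : ℂ) * Complex.I) - 1) := by
          rw [e3]
          ring
        rw [e5, norm_mul, Complex.norm_exp_ofReal_mul_I, one_mul]
      rw [e4]
      have e6 : Complex.exp (((t * (m n + d n) : ℝ) : ℂ) * Complex.I) - Complex.exp (((t * m n : ℝ) : ℂ) * Complex.I) =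
          (A - A') - (A - Complex.exp (((t * (m n + d n) : ℝ) : ℂ) * Complex.I)) +
            (A' - Complex.exp (((t * m n : ℝ) : ℂ) * Complex.I)) := by ring
      rw [e6]
      refine (norm_add_le _ _).trans ?_
      have e7 := norm_sub_le (A - A') (A - Complex.exp (((t * (m n + d n) : ℝ) : ℂ) * Complex.I))
      linarith
    have k3 : Tendsto (fun n => ‖Complex.exp (((t * (d n) : ℝ) : ℂ) * Complex.I) - 1‖) (hyperfilter ℕ : Filter ℕ)
        (𝓝 ‖Complex.exp (((t * x : ℝ) : ℂ) * Complex.I) - 1‖) := by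
      have hcont : Continuous fun y : ℝ => ‖Complex.exp (((t * y : ℝ) : ℂ) * Complex.I) - 1‖ := by fun_prop
      exact (hcont.tendsto x).comp hx
    have k4 := (k1.norm).const_add (4 / 5)
    rw [norm_zero, add_zero] at k4
    have k5 := le_of_tendsto_of_tendsto k3 k4 k2
    have e8 : t * x = Real.pi := by
      rw [ht, div_mul_cancel₀ _ hxne]
    rw [e8, Complex.exp_pi_mul_I] at k5
    norm_num at k5
  have h5 : ∀ᶠ y in 𝓝 x, |y| < 100 * C := by
    have : |x| < 100 * C := by linarith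
    exact (continuous_abs.tendsto x).eventually (gt_mem_nhds this)
  filter_upwards [hx.eventually h5] with n hn
  exact hn.le

end Pool.Agent.Helper82.FQ
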