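import Pool.Agent.Helper78.BM.Phi

/-!
# Project FQ (MP_0f6f3f_an): the scale lemma

`f` is a unimodular function on `G` with `f (γ k) ~ f γ · g_k(γ)`, `g_k` uniformly continuous at infinity (for example `f = exp(i t h)`, `h` the logarithm of the norm
in the representation of the node). If `B` is a boundary map (`T* T = p`, `T T*` local), then `S = Φ(f)` satisfies `V_q S = S V_q` for all `q` in the commutator subgroup of the
centraliser of `b` (`Ph_comm`).
-/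

set_option autoImplicit false
set_option linter.unusedSectionVars false

open MeasureTheory Filter Topology

namespace Pool.Agent.Helper82.FQ

open Pool.Agent.Helper84 Pool.Agent.Helper84.GN Pool.Agent.Helper84.GN.S3 Pool.Agent.Helper84.GN.S3.X
open Pool.Agent.Helper84.NI Pool.Agent.Helper84.GVN Pool.Agent.Helper90.RK
open Pool.Agent.Helper96.RK Pool.Agent.Helper66.FR Pool.Agent.Helper84.FR Pool.Agent.Helper55.FR
open Pool.Agent.Helper78.BM

variable {G1 X G Λ : Type} [Group G1] [TopologicalSpace G1] [IsTopologicalGroup G1] [MeasurableSpace X] [MulAction G1 X]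
  [MeasurableConstSMul G1 X] [Group G] [Group Λ] [Countable Λ] {μ : Measure X} [SMulInvariantMeasure G1 X μ]
  [IsProbabilityMeasure μ] {a : Cocy G1 X Λ} {E : Emb Λ G} {R : Reg G} {pd : PD G} {b : ℕ → G1}

variable (B : BMap μ a E R pd b)

/-- Products in the other order. -/
theorem Ph_mul' {f g : G → ℂ} {C : ℝ} (hC : ∀ γ, ‖f γ‖ ≤ C) (hg : AV R pd g) (φ : XL μ (L2 G)) :
    B.Ph g (B.Ph f φ) = B.Ph (fun γ => g γ * f γ) φ := by
  obtain ⟨D, hD⟩ := hg.bdd
  refine ext_inner_left ℂ fun ψ => ?_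
  have hC' : ∀ γ, ‖(starRingEnd ℂ) (f γ)‖ ≤ C := fun γ => by rw [RCLike.norm_conj]; exact hC γ
  have hD' : ∀ γ, ‖(starRingEnd ℂ) (g γ)‖ ≤ D := fun γ => by rw [RCLike.norm_conj]; exact hD γ
  have h1 := B.Ph_adj (f := fun γ => (starRingEnd ℂ) (g γ)) hD' ψ (B.Ph f φ)
  have h2 := B.Ph_adj (f := fun γ => (starRingEnd ℂ) (f γ)) hC' (B.Ph (fun γ => (starRingEnd ℂ) (g γ)) ψ) φ
  have h3 := B.Ph_adj (f := fun γ => (starRingEnd ℂ) (f γ) * (starRingEnd ℂ) (g γ)) (C := C * D)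
    (fun γ => by rw [norm_mul]; exact mul_le_mul (hC' γ) (hD' γ) (norm_nonneg _) ((norm_nonneg _).trans (hC γ))) ψ φ
  simp only [Complex.conj_conj, map_mul] at h1 h2 h3
  rw [B.Ph_mul hC' hg.conj] at h2
  rw [← h1, ← h2, h3]
  have e : (fun γ => f γ * g γ) = fun γ => g γ * f γ := funext fun γ => mul_comm _ _
  rw [e]

/-- The properties of the scale operators. -/
structure Sc (B : BMap μ a E R pd b) (g : G → G → ℂ) (Z : XL μ (L2 G) →L[ℂ] XL μ (L2 G)) : Prop where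
  base : ∀ D : Set X, MeasurableSet D → ∀ φ, Z (xE μ (L2 G) D φ) = xE μ (L2 G) D (Z φ)
  cov : ∀ (k : G) φ, Wk μ k (Z φ) = Z (B.Ph (g k) (Wk μ k φ))
  com : ∀ (k : G) φ, Z (B.Ph (g k) φ) = B.Ph (g k) (Z φ)
  con : ∀ u ∈ Ctr b, ∀ φ, Z (Vq μ a E u φ) = Vq μ a E u (Z φ)

/-- The functions `g_k`. -/
structure Gk (R : Reg G) (pd : PD G) (f : G → ℂ) (g : G → G → ℂ) : Prop where
  one : ∀ γ, ‖f γ‖ = 1
  av : ∀ k, AV R pd (g k)
  lim : ∀ k n, Tendsto (fun γ => f (γ * k) - f γ * g k γ) (R.F n) (𝓝 0)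

variable {B}

theorem Gk.uni {f : G → ℂ} {g : G → G → ℂ} (h : Gk R pd f g) (k : G) (φ ψ : XL μ (L2 G)) :
    inner ℂ (B.Ph (g k) φ) (B.Ph (g k) ψ) = inner ℂ φ ψ := by
  obtain ⟨C, hC⟩ := (h.av k).bdd
  have hC' : ∀ γ, ‖(starRingEnd ℂ) (g k γ)‖ ≤ C := fun γ => by rw [RCLike.norm_conj]; exact hC γ
  rw [B.Ph_adj hC, B.Ph_mul hC' (h.av k)]
  have h1 : B.Ph (fun γ => (starRingEnd ℂ) (g k γ) * g k γ) ψ = B.Ph (fun _ => (1 : ℂ)) ψ := by
    refine B.Ph_congr (C := C * C) (D := 1)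
      (fun γ => by rw [norm_mul]; exact mul_le_mul (hC' γ) (hC γ) (norm_nonneg _) ((norm_nonneg _).trans (hC γ)))
      (fun _ => by simp) (fun n => ?_) ψ
    have h2 : Tendsto (fun γ => ‖g k γ‖) (R.F n) (𝓝 1) := by
      have h3 : Tendsto (fun γ => ‖f (γ * k) - f γ * g k γ‖) (R.F n) (𝓝 0) := by
        have := (h.lim k n).norm
        rwa [norm_zero] at this
      have h4 : ∀ γ, |‖g k γ‖ - 1| ≤ ‖f (γ * k) - f γ * g k γ‖ := fun γ => by
        have e1 : ‖f γ * g k γ‖ = ‖g k γ‖ := by rw [norm_mul, h.one, one_mul]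
        have e2 := abs_norm_sub_norm_le (f (γ * k)) (f γ * g k γ)
        rw [e1, h.one, abs_sub_comm] at e2
        exact e2
      have h5 : Tendsto (fun γ => ‖g k γ‖ - 1) (R.F n) (𝓝 0) := squeeze_zero_norm (fun γ => h4 γ) h3
      have h6 := h5.add_const 1
      simpa using h6
    have h7 : Tendsto (fun γ => ((‖g k γ‖ ^ 2 - 1 : ℝ) : ℂ)) (R.F n) (𝓝 0) := by
      have h8 : Tendsto (fun γ => ‖g k γ‖ ^ 2 - 1) (R.F n) (𝓝 0) := by
        have := (h2.pow 2).sub_const 1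
        simpa using this
      have h9 := (Complex.continuous_ofReal.tendsto 0).comp h8
      rw [Complex.ofReal_zero] at h9
      exact h9
    refine h7.congr fun γ => ?_
    rw [mul_comm, Complex.mul_conj, Complex.normSq_eq_norm_sq]
    push_cast
    ring
  rw [h1, B.Ph_const, one_smul]

/-- **Two scale operators**: `Z* Z'` is a scalar. -/
theorem Sc.scal {f : G → ℂ} {g : G → G → ℂ} (h : Gk R pd f g) (hE : ErgU μ a E (Ctr b))
    {Z Z' : XL μ (L2 G) →L[ℂ] XL μ (L2 G)} (hZ : Sc B g Z) (hZ' : Sc B g Z') :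
    ∃ c : ℂ, ∀ φ, ContinuousLinearMap.adjoint Z (Z' φ) = c • φ := by
  have k1 : ∀ D : Set X, MeasurableSet D → ∀ φ, ((ContinuousLinearMap.adjoint Z).comp Z') (xE μ (L2 G) D φ) =
      xE μ (L2 G) D (((ContinuousLinearMap.adjoint Z).comp Z') φ) := fun D hD φ => by
    refine ext_inner_left ℂ fun ψ => ?_
    rw [ContinuousLinearMap.comp_apply, ContinuousLinearMap.comp_apply, ContinuousLinearMap.adjoint_inner_right, hZ'.base D hD,
      ← xE_symm hD, ← xE_symm hD, ← hZ.base D hD, ContinuousLinearMap.adjoint_inner_right]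
  have k2 : ∀ (k : G) φ, ((ContinuousLinearMap.adjoint Z).comp Z') (Wk μ k φ) =
      Wk μ k (((ContinuousLinearMap.adjoint Z).comp Z') φ) := fun k φ => by
    refine ext_inner_left ℂ fun ψ => ?_
    obtain ⟨ψ', rfl⟩ : ∃ ψ', Wk μ k ψ' = ψ := ⟨Wk μ k⁻¹ ψ, Wk_inv' k ψ⟩
    rw [ContinuousLinearMap.comp_apply, ContinuousLinearMap.comp_apply, ContinuousLinearMap.adjoint_inner_right, inner_Wk,
      ContinuousLinearMap.adjoint_inner_right, ← inner_Wk (μ := μ) k (Z ψ'), hZ.cov, hZ'.cov, hZ.com, hZ'.com, h.uni]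
  have k3 : ∀ u ∈ Ctr b, ∀ φ, ((ContinuousLinearMap.adjoint Z).comp Z') (Vq μ a E u φ) =
      Vq μ a E u (((ContinuousLinearMap.adjoint Z).comp Z') φ) := fun u hu φ => by
    refine ext_inner_left ℂ fun ψ => ?_
    obtain ⟨ψ', rfl⟩ : ∃ ψ', Vq μ a E u ψ' = ψ := ⟨Vq μ a E u⁻¹ ψ, Vq_inv' u ψ⟩
    rw [ContinuousLinearMap.comp_apply, ContinuousLinearMap.comp_apply, ContinuousLinearMap.adjoint_inner_right, inner_Vq,
      ContinuousLinearMap.adjoint_inner_right, hZ.con u hu, hZ'.con u hu, inner_Vq]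
  exact hE _ k1 k2 k3

/-- The operator `Φ(f)`. -/
theorem Gk.sc {f : G → ℂ} {g : G → G → ℂ} (h : Gk R pd f g)
    (h3 : Tendsto (fun g : G1 => μ {x | a.a g x ≠ 1}) (𝓝 1) (𝓝 0)) : Sc B g (B.Ph f) where
  base := fun D hD φ => B.Ph_xE f hD φ
  cov := fun k φ => by
    have hf : ∀ γ, ‖f γ‖ ≤ 1 := fun γ => (h.one γ).le
    obtain ⟨C, hC⟩ := (h.av k).bdd
    rw [← B.Ph_W hf, B.Ph_mul hf (h.av k)]
    exact B.Ph_congr (C := 1) (D := 1 * C) (fun γ => hf _)
      (fun γ => by rw [norm_mul]; exact mul_le_mul (hf γ) (hC γ) (norm_nonneg _) zero_le_one) (h.lim k) _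
  com := fun k φ => by
    have hf : ∀ γ, ‖f γ‖ ≤ 1 := fun γ => (h.one γ).le
    rw [Ph_mul' B hf (h.av k), B.Ph_mul hf (h.av k)]
    have e : (fun γ => f γ * g k γ) = fun γ => g k γ * f γ := funext fun γ => mul_comm _ _
    rw [e]
  con := fun u hu φ => B.Ph_contr h3 f hu φ

/-- The conjugate of a scale operator with an element of the centraliser. -/
theorem Sc.conj (hP : PLf R pd) {g : G → G → ℂ} (hg : ∀ k, AV R pd (g k)) {Z : XL μ (L2 G) →L[ℂ] XL μ (L2 G)}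
    (hZ : Sc B g Z) (q : cen b) :
    Sc B g ((Vq μ a E (q : G1)).comp (Z.comp (Vq μ a E (q : G1)⁻¹))) where
  base := fun D hD φ => by
    simp only [ContinuousLinearMap.comp_apply]
    have hD1 : MeasurableSet ((fun x => ((q : G1)⁻¹)⁻¹ • x) ⁻¹' D) := measurable_const_smul _ hD
    have e1 : Vq μ a E (q : G1)⁻¹ (xE μ (L2 G) D φ) =
        xE μ (L2 G) ((fun x => ((q : G1)⁻¹)⁻¹ • x) ⁻¹' D) (Vq μ a E (q : G1)⁻¹ φ) :=
      vg_xE a (jjR E) (q : G1)⁻¹ hD φ
    rw [e1, hZ.base _ hD1]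
    have e2 := vg_xE a (jjR E) (q : G1) hD1 (Z (Vq μ a E (q : G1)⁻¹ φ))
    have e3 : (fun x : X => (q : G1)⁻¹ • x) ⁻¹' ((fun x => ((q : G1)⁻¹)⁻¹ • x) ⁻¹' D) = D := by
      ext x
      simp
    rw [e3] at e2
    exact e2
  cov := fun k φ => by
    simp only [ContinuousLinearMap.comp_apply]
    have e : ∀ (r : G1) (ψ : XL μ (L2 G)), Vq μ a E r (Wk μ k ψ) = Wk μ k (Vq μ a E r ψ) := fun r ψ =>
      (cl_vg a (A0 := jjR E) (A1 := jjR E)
        (T := ((lamU k).toContinuousLinearEquiv : L2 G →L[ℂ] L2 G))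
        (fun l v => ((E.conj.comm l).jjU_lam k v).symm) r ψ).symm
    have h1 := B.Ph_cen hP (hg k) q⁻¹ (Wk μ k φ)
    simp only [InvMemClass.coe_inv] at h1
    rw [← e, hZ.cov, ← h1, e]
  com := fun k φ => by
    simp only [ContinuousLinearMap.comp_apply]
    have h1 := B.Ph_cen hP (hg k) q⁻¹ φ
    simp only [InvMemClass.coe_inv] at h1
    rw [← h1, hZ.com, B.Ph_cen hP (hg k) q]
  con := fun u hu φ => by
    simp only [ContinuousLinearMap.comp_apply]
    have hu' : (q : G1)⁻¹ * u * (q : G1) ∈ Ctr b := by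
      have h1 : ∀ n, b n * ((q : G1)⁻¹ * u * (q : G1)) * (b n)⁻¹ = (q : G1)⁻¹ * (b n * u * (b n)⁻¹) * (q : G1) := fun n => by
        have h2 : b n * (q : G1)⁻¹ = (q : G1)⁻¹ * b n := mem_cen.1 (cen b |>.inv_mem q.2) n
        have h3 : (q : G1) * (b n)⁻¹ = (b n)⁻¹ * (q : G1) := by
          have := mem_cen.1 q.2 n
          rw [mul_inv_eq_iff_eq_mul, mul_assoc, ← this, inv_mul_cancel_left]
        calc b n * ((q : G1)⁻¹ * u * (q : G1)) * (b n)⁻¹ = (b n * (q : G1)⁻¹) * u * ((q : G1) * (b n)⁻¹) := by group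
          _ = (q : G1)⁻¹ * (b n * u * (b n)⁻¹) * (q : G1) := by rw [h2, h3]; group
      change Tendsto _ _ _
      have h4 : Tendsto (fun n => (q : G1)⁻¹ * (b n * u * (b n)⁻¹) * (q : G1)) (hyperfilter ℕ : Filter ℕ)
          (𝓝 ((q : G1)⁻¹ * 1 * (q : G1))) := ((tendsto_const_nhds.mul hu).mul tendsto_const_nhds)
      rw [mul_one, inv_mul_cancel] at h4
      exact h4.congr fun n => (h1 n).symm
    have e1 : Vq μ a E (q : G1)⁻¹ (Vq μ a E u φ) = Vq μ a E ((q : G1)⁻¹ * u * (q : G1)) (Vq μ a E (q : G1)⁻¹ φ) := by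
      change vg μ a (jjR E) _ (vg μ a (jjR E) _ φ) = vg μ a (jjR E) _ (vg μ a (jjR E) _ φ)
      rw [← vg_mul, ← vg_mul]
      congr 1
      group
    rw [e1, hZ.con _ hu']
    change vg μ a (jjR E) _ (vg μ a (jjR E) _ _) = vg μ a (jjR E) _ (vg μ a (jjR E) _ _)
    rw [← vg_mul, ← vg_mul]
    congr 1
    group

theorem Gk.star {f : G → ℂ} {g : G → G → ℂ} (h : Gk R pd f g) :
    Gk R pd (fun γ => (starRingEnd ℂ) (f γ)) (fun k γ => (starRingEnd ℂ) (g k γ)) where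
  one := fun γ => by rw [RCLike.norm_conj, h.one]
  av := fun k => (h.av k).conj
  lim := fun k n => by
    have h1 := (h.lim k n).norm
    rw [norm_zero] at h1
    rw [tendsto_zero_iff_norm_tendsto_zero]
    refine h1.congr fun γ => ?_
    rw [← map_mul, ← map_sub, RCLike.norm_conj]

variable (B) in
/-- `V_q Φ(f) = χ Φ(f) V_q`. -/
theorem exists_chi {f : G → ℂ} {g : G → G → ℂ} (h : Gk R pd f g) (hP : PLf R pd) (hE : ErgU μ a E (Ctr b))
    (h3 : Tendsto (fun g : G1 => μ {x | a.a g x ≠ 1}) (𝓝 1) (𝓝 0)) (q : cen b) :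
    ∃ c : ℂ, ∀ φ, Vq μ a E (q : G1) (B.Ph f φ) = c • B.Ph f (Vq μ a E (q : G1) φ) := by
  have hf : ∀ γ, ‖f γ‖ ≤ 1 := fun γ => (h.one γ).le
  have hf' : ∀ γ, ‖(starRingEnd ℂ) (f γ)‖ ≤ 1 := fun γ => (h.star.one γ).le
  have hadj : ContinuousLinearMap.adjoint (B.Ph f) = B.Ph fun γ => (starRingEnd ℂ) (f γ) := by
    symm
    rw [ContinuousLinearMap.eq_adjoint_iff]
    intro x y
    have h1 := B.Ph_adj (f := fun γ => (starRingEnd ℂ) (f γ)) hf' x y
    simp only [Complex.conj_conj] at h1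
    exact h1
  have hadj' : ContinuousLinearMap.adjoint (B.Ph fun γ => (starRingEnd ℂ) (f γ)) = B.Ph f := by
    rw [← hadj, ContinuousLinearMap.adjoint_adjoint]
  obtain ⟨c, hc⟩ := Sc.scal h hE (h.sc (B := B) h3) (Sc.conj hP h.av (h.sc (B := B) h3) q)
  obtain ⟨c', hc'⟩ := Sc.scal h.star hE (h.star.sc (B := B) h3) (h.star.sc (B := B) h3)
  rw [hadj'] at hc'
  rw [hadj] at hc
  by_cases h0 : c' = 0
  · have h1 : ∀ φ, B.Ph (fun γ => (starRingEnd ℂ) (f γ)) φ = 0 := fun φ => by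
      have h2 := hc' φ
      rw [h0, zero_smul] at h2
      have h4 : inner ℂ (B.Ph (fun γ => (starRingEnd ℂ) (f γ)) φ) (B.Ph (fun γ => (starRingEnd ℂ) (f γ)) φ) = 0 := by
        rw [← hadj, ContinuousLinearMap.adjoint_inner_left, hadj, h2, inner_zero_right]
      exact inner_self_eq_zero.1 h4
    have h2 : ∀ φ, B.Ph f φ = 0 := fun φ => by
      refine ext_inner_left ℂ fun ψ => ?_
      have h4 := B.Ph_adj (f := fun γ => (starRingEnd ℂ) (f γ)) hf' ψ φ
      simp only [Complex.conj_conj] at h4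
      rw [inner_zero_right, ← h4, h1, inner_zero_left]
    exact ⟨0, fun φ => by rw [h2, map_zero, zero_smul]⟩
  · refine ⟨c / c', fun φ => ?_⟩
    have h1 := hc (Vq μ a E (q : G1) φ)
    have h2 := congrArg (B.Ph f) h1
    rw [hc', map_smul] at h2
    simp only [ContinuousLinearMap.comp_apply] at h2
    rw [Vq_inv] at h2
    rw [div_eq_inv_mul, mul_smul, ← h2, smul_smul, inv_mul_cancel₀ h0, one_smul]

variable (B) in
/-- **The scale lemma**: `Φ(f)` commutes with the commutator subgroup of the centraliser. -/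
theorem Ph_comm {f : G → ℂ} {g : G → G → ℂ} (h : Gk R pd f g) (hP : PLf R pd) (hE : ErgU μ a E (Ctr b))
    (h3 : Tendsto (fun g : G1 => μ {x | a.a g x ≠ 1}) (𝓝 1) (𝓝 0)) {q : cen b} (hq : q ∈ commutator (cen b))
    (φ : XL μ (L2 G)) : B.Ph f (Vq μ a E (q : G1) φ) = Vq μ a E (q : G1) (B.Ph f φ) := by
  classical
  by_cases hS : ∀ ψ, B.Ph f ψ = 0
  · rw [hS, hS, map_zero]
  push Not at hS
  obtain ⟨ψ, hψ⟩ := hS
  choose χ hχ using exists_chi B h hP hE h3
  have huniq : ∀ (l : cen b) (c c' : ℂ), (∀ φ, c • B.Ph f (Vq μ a E (l : G1) φ) = c' • B.Ph f (Vq μ a E (l : G1) φ)) → c = c' := by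
    intro l c c' hc
    have h1 := hc (Vq μ a E (l : G1)⁻¹ ψ)
    rw [Vq_inv'] at h1
    exact smul_left_injective ℂ hψ h1
  have hmul : ∀ l m : cen b, χ (l * m) = χ l * χ m := by
    intro l m
    refine huniq (l * m) _ _ fun φ => ?_
    have e : ∀ x, Vq μ a E ((l * m : cen b) : G1) x = Vq μ a E (l : G1) (Vq μ a E (m : G1) x) := fun x => by
      change vg μ a (jjR E) _ _ = vg μ a (jjR E) _ (vg μ a (jjR E) _ _)
      rw [← vg_mul]
      rfl
    rw [← hχ, e, hχ, map_smul, hχ, smul_smul, e, mul_comm (χ l)]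
  have hone : χ 1 = 1 := by
    refine huniq 1 _ _ fun φ => ?_
    have e : ∀ x, Vq μ a E ((1 : cen b) : G1) x = x := fun x => by
      change vg μ a (jjR E) _ _ = _
      rw [OneMemClass.coe_one, vg_one]
    rw [← hχ, e, e, one_smul]
  let F : cen b →* ℂ := { toFun := χ, map_one' := hone, map_mul' := hmul }
  have h1 : q ∈ (F.toHomUnits).ker := Abelianization.commutator_subset_ker F.toHomUnits hq
  have h2 : χ q = 1 := by
    have h4 := congrArg Units.val (MonoidHom.mem_ker.1 h1)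
    exact h4
  have h4 := hχ q φ
  rw [h2, one_smul] at h4
  exact h4.symm

end Pool.Agent.Helper82.FQ
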